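import Pool.Agent.helper16.CVL.Spec

/-!
# Block CVL (MP_70a088_an), row ESC: escaping points
-/

set_option autoImplicit false

open Complex Metric Set Filter Topology MeasureTheory
open HY (UD T S hd UN RM)
open RT (UC TD rm lf cr pd bl gr hdf Lf UP)

noncomputable section

namespace CVL

theorem ESC (hptc : PTC_stmt) (hgcl : RT.GCL_stmt) (htdf : RT.TDF_stmt) (hqfn : RT.QFN_stmt) : ESC_stmt := by
  intro s U W x χ hF z hz
  have key : ∀ ρ : ℝ, ρ < 1 → ∀ᶠ j in (U : Filter ℕ), ρ < pd (W j) (x j) (z j) := by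
    intro ρ hρ
    by_contra hcon
    rw [← Ultrafilter.eventually_not] at hcon
    have h1 : ∀ᶠ j in (U : Filter ℕ), z j ∈ W j ∧ pd (W j) (x j) (z j) ≤ ρ := by
      filter_upwards [hcon, hF.td] with j hj htd
      have hle : pd (W j) (x j) (z j) ≤ ρ := not_lt.mp hj
      refine ⟨?_, hle⟩
      by_contra hzW
      have := (((htdf s (W j) htd.1 (x j) htd.2).2.2.2.2.2.1) (z j) hzW).1
      rw [this] at hle
      linarith
    obtain ⟨u₀, hu₀, -, -, hlim⟩ := hptc s U W x χ hF ρ hρ z h1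
    exact hz (χ u₀) (mem_image_of_mem χ hu₀) hlim
  have hle : ∀ᶠ j in (U : Filter ℕ), pd (W j) (x j) (z j) ≤ 1 := by
    filter_upwards [hF.td] with j htd
    exact ((hqfn s (W j) hF.s0 htd.1).2 (x j) (z j)).2.2
  have hpd : Tendsto (fun j => pd (W j) (x j) (z j)) U (𝓝 1) := by
    rw [tendsto_order]
    refine ⟨fun a ha => key a ha, fun a ha => ?_⟩
    filter_upwards [hle] with j hj
    exact lt_of_le_of_lt hj ha
  refine ⟨hpd, ?_⟩
  obtain ⟨C, κ, hC, hκ, hG⟩ := hgcl s hF.s0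
  have hlow : Tendsto (fun j => 1 - C * (1 - pd (W j) (x j) (z j)) ^ κ) U (𝓝 1) := by
    have h1 : Tendsto (fun j => 1 - pd (W j) (x j) (z j)) U (𝓝 0) := by
      have := (tendsto_const_nhds (x := (1 : ℝ)) (f := (U : Filter ℕ))).sub hpd
      simpa using this
    have h2 : Tendsto (fun j => (1 - pd (W j) (x j) (z j)) ^ κ) U (𝓝 ((0 : ℝ) ^ κ)) :=
      h1.rpow_const (Or.inr hκ.le)
    rw [Real.zero_rpow hκ.ne'] at h2
    have h3 := (tendsto_const_nhds (x := (1 : ℝ)) (f := (U : Filter ℕ))).sub (h2.const_mul C)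
    simpa using h3
  refine tendsto_of_tendsto_of_tendsto_of_le_of_le' hlow tendsto_const_nhds ?_ ?_
  · filter_upwards [hF.td, hle] with j htd hj
    by_cases hzW : z j ∈ W j
    · have := hG (W j) htd.1 (x j) htd.2 (z j) hzW
      linarith
    · have h1 := (((htdf s (W j) htd.1 (x j) htd.2).2.2.2.2.2.1) (z j) hzW).2
      rw [h1]
      have h2 : 0 ≤ C * (1 - pd (W j) (x j) (z j)) ^ κ :=
        mul_nonneg hC.le (Real.rpow_nonneg (by linarith) κ)
      linarith
  · filter_upwards [hF.td] with j htd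
    have := (hqfn s (W j) hF.s0 htd.1).2 (x j) (z j)
    exact le_trans this.2.1 this.2.2

end CVL
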